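import Pool.Agent.J4H63.KS.Stm

/-! Project KS (helper63), piece TREE: rich kernels and few other edges. -/

set_option autoImplicit false

namespace Pool.Agent.J4H21.KS

open Finset Pool.Agent.J4H63.KS

theorem prod_ge_one (r : ℕ) (B : ℕ → ℕ) (s : Finset ℕ) : 1 ≤ ∏ i ∈ s, (r * B i + 1) :=
  Finset.one_le_prod' fun i _ => Nat.le_add_left 1 _

theorem prod_Ico_head (r : ℕ) (B : ℕ → ℕ) {a j : ℕ} (h : a < j) :
    ∏ i ∈ Ico a j, (r * B i + 1) = (r * B a + 1) * ∏ i ∈ Ico (a + 1) j, (r * B i + 1) :=
  Finset.prod_eq_prod_Ico_succ_bot h _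

section

variable {V : Type} [DecidableEq V]

/-- the conclusion -/
def Good (r : ℕ) (B : ℕ → ℕ) (E : Finset (Finset V)) (κ₀ : Finset V) (𝒯 : Finset (Finset V)) : Prop :=
    (∀ j, (𝒯.filter (fun κ => κ.card = j)).card ≤ ∏ i ∈ Ico κ₀.card j, (r * B i + 1)) ∧
    (∀ κ ∈ 𝒯, κ₀ ⊆ κ ∧ κ.card < r ∧ ∃ f : Fin (B κ.card) → Finset V,
      (∀ l, f l ∈ E ∧ κ ⊆ f l) ∧ ∀ l l', l ≠ l' → f l ∩ f l' = κ) ∧
    (E.filter (fun e => ∀ κ ∈ 𝒯, ¬ κ ⊆ e)).card ≤ ∏ i ∈ Ico κ₀.card r, (r * B i + 1)

/-- pairwise intersections `κ₀` -/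
def Pw (κ₀ : Finset V) (F : Finset (Finset V)) : Prop := ∀ e ∈ F, ∀ e' ∈ F, e ≠ e' → e ∩ e' = κ₀

theorem base (r : ℕ) (B : ℕ → ℕ) (E : Finset (Finset V)) (κ₀ : Finset V) (hE : ∀ e ∈ E, e.card = r ∧ κ₀ ⊆ e)
    (h : r ≤ κ₀.card) : Good r B E κ₀ ∅ := by
  refine ⟨fun j => by simp, fun κ hκ => absurd hκ (notMem_empty κ), ?_⟩
  have h1 : E ⊆ {κ₀} := by
    intro e he
    obtain ⟨h2, h3⟩ := hE e he
    rw [mem_singleton]
    exact (Finset.eq_of_subset_of_card_le h3 (by omega)).symm
  refine (Finset.card_le_card ((Finset.filter_subset _ _).trans h1)).trans ?_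
  rw [card_singleton]
  exact prod_ge_one r B _

theorem tree_aux (r : ℕ) (B : ℕ → ℕ) (m : ℕ) : ∀ (E : Finset (Finset V)) (κ₀ : Finset V),
    (∀ e ∈ E, e.card = r ∧ κ₀ ⊆ e) → r ≤ κ₀.card + m → ∃ 𝒯, Good r B E κ₀ 𝒯 := by
  induction m with
  | zero => exact fun E κ₀ hE h => ⟨∅, base r B E κ₀ hE (by omega)⟩
  | succ m ih =>
    intro E κ₀ hE h
    by_cases hr : r ≤ κ₀.card
    · exact ⟨∅, base r B E κ₀ hE hr⟩
    push Not at hr
    classical
    -- a maximal family
    obtain ⟨F, hF, hmax⟩ := Finset.exists_max_image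
      (E.powerset.filter (Pw κ₀)) Finset.card
      ⟨∅, Finset.mem_filter.2 ⟨Finset.mem_powerset.2 (Finset.empty_subset _), fun e he => absurd he (notMem_empty e)⟩⟩
    rw [Finset.mem_filter, Finset.mem_powerset] at hF
    obtain ⟨hFE, hFd⟩ := hF
    by_cases hrich : B κ₀.card ≤ F.card
    · -- rich
      obtain ⟨F', hF', hcard⟩ := Finset.exists_subset_card_eq hrich
      let f : Fin (B κ₀.card) → Finset V := fun l => (F'.equivFin.symm (Fin.cast hcard.symm l)).1
      have hfm : ∀ l, f l ∈ F' := fun l => (F'.equivFin.symm (Fin.cast hcard.symm l)).2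
      have hfi : ∀ l l', l ≠ l' → f l ≠ f l' := by
        intro l l' hl e
        apply hl
        have h1 := F'.equivFin.symm.injective (Subtype.ext e)
        exact Fin.cast_injective _ h1
      refine ⟨{κ₀}, fun j => ?_, fun κ hκ => ?_, ?_⟩
      · refine (Finset.card_le_card (Finset.filter_subset _ _)).trans ?_
        rw [card_singleton]
        exact prod_ge_one r B _
      · rw [mem_singleton] at hκ
        subst hκ
        exact ⟨Finset.Subset.refl _, hr, f, fun l => ⟨hFE (hF' (hfm l)), (hE _ (hFE (hF' (hfm l)))).2⟩,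
          fun l l' hl => hFd _ (hF' (hfm l)) _ (hF' (hfm l')) (hfi l l' hl)⟩
      · have h0 : E.filter (fun e => ∀ κ ∈ ({κ₀} : Finset (Finset V)), ¬ κ ⊆ e) = ∅ := by
          rw [Finset.filter_eq_empty_iff]
          intro e he hcon
          exact hcon κ₀ (mem_singleton_self _) (hE e he).2
        rw [h0, card_empty]
        exact Nat.zero_le _
    · push Not at hrich
      -- the elements of the family outside of `κ₀`
      set C : Finset V := F.biUnion id \ κ₀ with hC
      have hCc : C.card ≤ r * B κ₀.card := by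
        have h1 : C.card ≤ ∑ e ∈ F, e.card :=
          (Finset.card_le_card Finset.sdiff_subset).trans Finset.card_biUnion_le
        rw [Finset.sum_congr rfl fun e he => (hE e (hFE he)).1, Finset.sum_const, smul_eq_mul] at h1
        refine h1.trans ?_
        rw [mul_comm]
        exact Nat.mul_le_mul_left _ hrich.le
      have hmeet : ∀ e ∈ E, ∃ c ∈ C, c ∈ e := by
        intro e he
        by_contra hcon
        push Not at hcon
        have h1 : ∀ f ∈ F, e ∩ f = κ₀ := by
          intro f hf
          apply Finset.Subset.antisymm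
          · intro x hx
            rw [mem_inter] at hx
            by_contra hx0
            exact hcon x (Finset.mem_sdiff.2 ⟨Finset.mem_biUnion.2 ⟨f, hf, hx.2⟩, hx0⟩) hx.1
          · exact Finset.subset_inter (hE e he).2 (hE f (hFE hf)).2
        have h2 : e ∉ F := by
          intro hef
          have h3 := h1 e hef
          rw [Finset.inter_self] at h3
          have h4 := (hE e he).1
          rw [h3] at h4
          omega
        have h3 : insert e F ∈ E.powerset.filter (Pw κ₀) := by
          rw [Finset.mem_filter, Finset.mem_powerset]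
          refine ⟨Finset.insert_subset he hFE, ?_⟩
          intro a ha b hb hab
          rcases Finset.mem_insert.1 ha with ha' | ha'
          · rcases Finset.mem_insert.1 hb with hb' | hb'
            · exact absurd (ha'.trans hb'.symm) hab
            · rw [ha']
              exact h1 b hb'
          · rcases Finset.mem_insert.1 hb with hb' | hb'
            · rw [Finset.inter_comm, hb']
              exact h1 a ha'
            · exact hFd a ha' b hb' hab
        have h4 := hmax _ h3
        rw [Finset.card_insert_of_notMem h2] at h4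
        omega
      -- recursion
      have hrec : ∀ c ∈ C, ∃ 𝒯, Good r B (E.filter (fun e => c ∈ e)) (insert c κ₀) 𝒯 := by
        intro c hc
        have hc0 : c ∉ κ₀ := (Finset.mem_sdiff.1 hc).2
        apply ih
        · intro e he
          rw [Finset.mem_filter] at he
          exact ⟨(hE e he.1).1, Finset.insert_subset he.2 (hE e he.1).2⟩
        · rw [Finset.card_insert_of_notMem hc0]
          omega
      choose! T hT using hrec
      have hins : ∀ c ∈ C, (insert c κ₀).card = κ₀.card + 1 := fun c hc =>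
        Finset.card_insert_of_notMem (Finset.mem_sdiff.1 hc).2
      refine ⟨C.biUnion T, fun j => ?_, fun κ hκ => ?_, ?_⟩
      · by_cases hj : κ₀.card < j
        · rw [prod_Ico_head r B hj]
          have h1 : ((C.biUnion T).filter (fun κ => κ.card = j)).card ≤
              ∑ c ∈ C, ((T c).filter (fun κ => κ.card = j)).card := by
            rw [Finset.filter_biUnion]
            exact Finset.card_biUnion_le
          refine h1.trans ?_
          have h2 : ∀ c ∈ C, ((T c).filter (fun κ => κ.card = j)).card ≤ ∏ i ∈ Ico (κ₀.card + 1) j, (r * B i + 1) := by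
            intro c hc
            have := (hT c hc).1 j
            rwa [hins c hc] at this
          refine (Finset.sum_le_sum h2).trans ?_
          rw [Finset.sum_const, smul_eq_mul]
          exact Nat.mul_le_mul_right _ (hCc.trans (Nat.le_succ _))
        · have h0 : (C.biUnion T).filter (fun κ => κ.card = j) = ∅ := by
            rw [Finset.filter_eq_empty_iff]
            intro κ hκ hcard
            obtain ⟨c, hc, hκc⟩ := Finset.mem_biUnion.1 hκ
            have h1 := Finset.card_le_card ((hT c hc).2.1 κ hκc).1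
            rw [hins c hc] at h1
            omega
          rw [h0, card_empty]
          exact Nat.zero_le _
      · obtain ⟨c, hc, hκc⟩ := Finset.mem_biUnion.1 hκ
        obtain ⟨h1, h2, f, h3, h4⟩ := (hT c hc).2.1 κ hκc
        exact ⟨(Finset.subset_insert _ _).trans h1, h2, f,
          fun l => ⟨(Finset.mem_filter.1 (h3 l).1).1, (h3 l).2⟩, h4⟩
      · rw [prod_Ico_head r B hr]
        have h1 : E.filter (fun e => ∀ κ ∈ C.biUnion T, ¬ κ ⊆ e) ⊆
            C.biUnion (fun c => (E.filter (fun e => c ∈ e)).filter (fun e => ∀ κ ∈ T c, ¬ κ ⊆ e)) := by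
          intro e he
          rw [Finset.mem_filter] at he
          obtain ⟨c, hc, hce⟩ := hmeet e he.1
          rw [Finset.mem_biUnion]
          refine ⟨c, hc, ?_⟩
          rw [Finset.mem_filter, Finset.mem_filter]
          exact ⟨⟨he.1, hce⟩, fun κ hκ => he.2 κ (Finset.mem_biUnion.2 ⟨c, hc, hκ⟩)⟩
        refine (Finset.card_le_card h1).trans (Finset.card_biUnion_le.trans ?_)
        have h2 : ∀ c ∈ C, ((E.filter (fun e => c ∈ e)).filter (fun e => ∀ κ ∈ T c, ¬ κ ⊆ e)).card ≤
            ∏ i ∈ Ico (κ₀.card + 1) r, (r * B i + 1) := by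
          intro c hc
          have := (hT c hc).2.2
          rwa [hins c hc] at this
        refine (Finset.sum_le_sum h2).trans ?_
        rw [Finset.sum_const, smul_eq_mul]
        exact Nat.mul_le_mul_right _ (hCc.trans (Nat.le_succ _))

end

theorem t_TREE : S_TREE := by
  intro V _ r B E κ₀ hE
  exact tree_aux r B r E κ₀ hE (by omega)

end Pool.Agent.J4H21.KS
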