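import Pool.Agent.J4H63.KS.Stm

/-! Project KS (helper63), piece VAL: the sets produced by a stage are not contained in `I`. -/

set_option autoImplicit false

namespace Pool.Agent.J4H21.KS

open Finset Pool.Agent.J4H63.KS

theorem t_VAL : S_VAL := by
  classical
  intro V _ r t D H T Y X I hr hH hD hT hY hX s hs hsI
  rcases hs with (⟨i, hi1, hi2, τ, hτ, hτc, hτd, hτH⟩ | ⟨hne, i, hi1, hi2, hi3, S, hS, hSe⟩) | ⟨v, hv, rfl⟩ | ⟨v, hv, hvs, hvH⟩
  · exact (hH _ hτH).2 (Finset.union_subset (hτ.trans hT) hsI)
  · obtain ⟨x, hx⟩ := hne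
    have hG : ∀ e ∈ S, ∃ τ : Finset V, τ ⊆ T ∧ τ.card = i ∧ Disjoint τ e ∧ H (τ ∪ e) := fun e he => (hSe e he).2
    choose! τ h1 h2 h3 h4 using hG
    have hb : S.card ≤ 2 ^ r * (S.image (fun e => τ e ∪ e)).card := by
      refine Finset.card_le_mul_card_image S (2 ^ r) ?_
      intro e' he'
      obtain ⟨e, he, rfl⟩ := Finset.mem_image.1 he'
      have h5 : S.filter (fun x => τ x ∪ x = τ e ∪ e) ⊆ (τ e ∪ e).powerset := by
        intro e₂ he₂
        rw [Finset.mem_filter] at he₂
        rw [Finset.mem_powerset, ← he₂.2]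
        exact Finset.subset_union_right
      refine (Finset.card_le_card h5).trans ?_
      rw [Finset.card_powerset, (hH _ (h4 e he)).1]
    have hD' : (S.image (fun e => τ e ∪ e)).card ≤ D := by
      refine hD x (hsI hx) _ ?_
      intro e' he'
      obtain ⟨e, he, rfl⟩ := Finset.mem_image.1 he'
      have hse := (hSe e he).1
      refine ⟨h4 e he, Finset.mem_union_right _ (hse hx), ?_⟩
      have h5 : τ e ∪ s ⊆ (τ e ∪ e) ∩ I := by
        refine Finset.subset_inter (Finset.union_subset_union_right hse) ?_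
        exact Finset.union_subset ((h1 e he).trans hT) hsI
      have h6 := Finset.card_le_card h5
      have h7 : Disjoint (τ e) s := Finset.disjoint_of_subset_right hse (h3 e he)
      rw [Finset.card_union_of_disjoint h7, h2 e he] at h6
      omega
    have h8 := hb.trans (Nat.mul_le_mul_left _ hD')
    omega
  · exact Finset.disjoint_left.1 hY hv (hsI (mem_singleton_self v))
  · exact (hH _ hvH).2 (Finset.insert_subset (hX hv) hsI)

end Pool.Agent.J4H21.KS
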